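import Pool.Agent.H.MP_590da2_gt.A

namespace Pool.Agent.Results.MP_590da2_gt.NonAbelian

open Pool.Agent.H.MP_590da2_gt

variable {g : Type} [LieRing g] [LieAlgebra ℝ g]

/-- Complex structure on a real Lie algebra. -/
def IsCx (J : Module.End ℝ g) : Prop :=
  J * J = -1 ∧ ∀ X Y : g, ⁅X, Y⁆ + J (⁅J X, Y⁆ + ⁅X, J Y⁆) - ⁅J X, J Y⁆ = 0

/-- The Obata connection on left-invariant fields. -/
noncomputable def obata (J₁ J₂ J₃ : Module.End ℝ g) (X : g) : Module.End ℝ g :=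
  (1 / 2 : ℝ) • (LieAlgebra.ad ℝ g X + J₁ * LieAlgebra.ad ℝ g (J₁ X) -
    J₂ * LieAlgebra.ad ℝ g X * J₂ + J₃ * LieAlgebra.ad ℝ g (J₁ X) * J₂)

/-- Curvature operator of a left-invariant connection. -/
def curv (D : g → Module.End ℝ g) (X Y : g) : Module.End ℝ g :=
  D X * D Y - D Y * D X - D ⁅X, Y⁆

/-- Holonomy algebra of a left-invariant connection. -/
def hol (D : g → Module.End ℝ g) : Submodule ℝ (Module.End ℝ g) :=
  sInf {S | (∀ X Y, curv D X Y ∈ S) ∧ ∀ X, ∀ A ∈ S, D X * A - A * D X ∈ S}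

lemma ob (a b : L) : obata (up j1) (up j2) (up j3) a b = conv n4 a b := by
  rw [← nb_eq]; rfl

lemma cv (u v w : V) :
    curv (obata (up j1) (up j2) (up j3)) (e 0 u) (e 0 v) (e 0 w) =
      e 2 (n4 u (n4 v w) - n4 v (n4 u w) - n4 (b4 u v) w) ∧
    curv (obata (up j1) (up j2) (up j3)) (e 0 u) (e 0 v) (e 2 w) =
      e 4 (n4 u (n4 v w) - n4 v (n4 u w) - n4 (b4 u v) w) := by
  have h1 := conv_e n4 (fun a => by simp [n4_eq]) (fun a => by simp [n4_eq])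
  have h2 := conv_e (fun a b => b4 a b) (fun a => by simp) (fun a => by simp)
  constructor <;>
    simp only [curv, Module.End.mul_apply, LinearMap.sub_apply, ob, lie_eq, h1, h2, e_sub]

theorem result : ∃ (g : Type) (_ : LieRing g) (_ : LieAlgebra ℝ g) (_ : Module.Finite ℝ g)
    (J₁ J₂ J₃ : Module.End ℝ g), LieRing.IsNilpotent g ∧ IsCx J₁ ∧ IsCx J₂ ∧ IsCx J₃ ∧
    J₁ * J₂ = J₃ ∧ J₂ * J₁ = -J₃ ∧
    (∃ X Y Z W : g, curv (obata J₁ J₂ J₃) X Y * curv (obata J₁ J₂ J₃) Z W ≠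
      curv (obata J₁ J₂ J₃) Z W * curv (obata J₁ J₂ J₃) X Y) ∧
    ∃ A ∈ hol (obata J₁ J₂ J₃), ∃ B ∈ hol (obata J₁ J₂ J₃), A * B ≠ B * A := by
  have key : curv (obata (up j1) (up j2) (up j3)) (e 0 ![1, 0, 0, 0]) (e 0 ![0, 1, 0, 0]) *
      curv (obata (up j1) (up j2) (up j3)) (e 0 ![1, 0, 0, 0]) (e 0 ![0, 0, 1, 0]) ≠
      curv (obata (up j1) (up j2) (up j3)) (e 0 ![1, 0, 0, 0]) (e 0 ![0, 0, 1, 0]) *
      curv (obata (up j1) (up j2) (up j3)) (e 0 ![1, 0, 0, 0]) (e 0 ![0, 1, 0, 0]) := by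
    intro h
    have h1 := congrFun (congrFun (LinearMap.congr_fun h (e 0 ![1, 0, 0, 0])) 4) 3
    simp only [Module.End.mul_apply, cv] at h1
    simp [n4, b4_ap, e] at h1
    norm_num at h1
  have hm : ∀ X Y : L, curv (obata (up j1) (up j2) (up j3)) X Y ∈
      hol (obata (up j1) (up j2) (up j3)) := fun X Y =>
    Submodule.mem_sInf.2 fun S hS => hS.1 X Y
  refine ⟨L, inferInstance, inferInstance, inferInstance, up j1, up j2, up j3, inferInstance,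
    ⟨up_sq _ fun a => ?_, nij _ nij1⟩, ⟨up_sq _ fun a => ?_, nij _ nij2⟩,
    ⟨up_sq _ fun a => ?_, nij _ nij3⟩, up_mul _ _ _ fun a => ?_, up_mul' _ _ _ fun a => ?_,
    ⟨_, _, _, _, key⟩, _, hm _ _, _, hm _ _, key⟩ <;>
  · ext j
    fin_cases j <;> simp [j1_ap, j2_ap, j3_ap]

end Pool.Agent.Results.MP_590da2_gt.NonAbelian
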